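import Pool.Agent.Q8.SPN.Main

/-!
# MP_aa0c4d_al, Q1: strongly reversible elements of `Spin(n)`

`Spin(n)` is the group of even products of unit vectors of `ℝ^n` in the Clifford algebra with
`v * v = -‖v‖²`.  Let `x ∈ Spin(n)` be conjugate in `Spin(n)` to the normal form
`∏_j (cos θ_j + sin θ_j e_{2j-1} e_{2j})`, let `a` be the number of `j` with `sin θ_j = 0` and
`b` the number of `j` with `cos θ_j = 0`.  Then `x` is strongly reversible if and only if

* `n ≡ 0, 1, 7 (mod 8)`, or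
* `n ≡ 3, 5 (mod 8)` and (`a ≥ 1` or `b ≥ 2`), or
* `n ≡ 2, 6 (mod 8)` and `a ≥ 1`, or
* `n ≡ 4 (mod 8)` and (`a ≥ 2` or `b ≥ 2`).
-/

namespace Pool.Agent.Results.MP_aa0c4d_al.StronglyReversibleSpin

open Pool.Agent.Q8.SPN (Criterion StronglyReversible numSinZero numCosZero)

/-- The real Clifford algebra `C_n`: generated by the vectors of `ℝ^n` with
`v * v = -⟨v, v⟩`. -/
def C (n : ℕ) : Type := CliffordAlgebra (Pool.Agent.Q8.SPN.nq (EuclideanSpace ℝ (Fin n)))

noncomputable instance instRingC (n : ℕ) : Ring (C n) :=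
  inferInstanceAs (Ring (CliffordAlgebra (Pool.Agent.Q8.SPN.nq (EuclideanSpace ℝ (Fin n)))))

noncomputable instance instAlgebraC (n : ℕ) : Algebra ℝ (C n) :=
  inferInstanceAs (Algebra ℝ (CliffordAlgebra (Pool.Agent.Q8.SPN.nq (EuclideanSpace ℝ (Fin n)))))

/-- A vector of `ℝ^n` as an element of `C_n`. -/
noncomputable def vec {n : ℕ} (v : EuclideanSpace ℝ (Fin n)) : C n :=
  CliffordAlgebra.ι (Pool.Agent.Q8.SPN.nq (EuclideanSpace ℝ (Fin n))) v

/-- `u` is a product of an even number of unit vectors. -/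
def IsEvenProduct {n : ℕ} (u : (C n)ˣ) : Prop :=
  ∃ l : List (EuclideanSpace ℝ (Fin n)), Even l.length ∧ (∀ v ∈ l, ‖v‖ = 1) ∧
    (u : C n) = (l.map vec).prod

lemma isEvenProduct_one (n : ℕ) : IsEvenProduct (1 : (C n)ˣ) :=
  Pool.Agent.Q8.SPN.isEvenProduct_one n

lemma IsEvenProduct.mul {n : ℕ} {a b : (C n)ˣ} (ha : IsEvenProduct a)
    (hb : IsEvenProduct b) : IsEvenProduct (a * b) :=
  Pool.Agent.Q8.SPN.IsEvenProduct.mul ha hb

lemma IsEvenProduct.inv {n : ℕ} {a : (C n)ˣ} (ha : IsEvenProduct a) :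
    IsEvenProduct a⁻¹ :=
  Pool.Agent.Q8.SPN.IsEvenProduct.inv ha

/-- `Spin(n)`: the group of all products of an even number of unit vectors in `C_n`. -/
def Spin (n : ℕ) : Subgroup (C n)ˣ where
  carrier := {u | IsEvenProduct u}
  one_mem' := isEvenProduct_one n
  mul_mem' := IsEvenProduct.mul
  inv_mem' := IsEvenProduct.inv

/-- The element of `C_n` underlying an element of `Spin(n)`. -/
def toC {n : ℕ} (x : Spin n) : C n := ((x : (C n)ˣ) : C n)

/-- The generator `e_i` of `C_n` (indices start at zero). -/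
noncomputable def e {n : ℕ} (i : Fin n) : C n := vec (EuclideanSpace.single i 1)

lemma lt_even {n : ℕ} (j : Fin (n / 2)) : 2 * (j : ℕ) < n := by omega

lemma lt_odd {n : ℕ} (j : Fin (n / 2)) : 2 * (j : ℕ) + 1 < n := by omega

/-- The `j`-th factor `cos θ_j + sin θ_j e_{2j} e_{2j+1}` (indices start at zero). -/
noncomputable def factor {n : ℕ} (θ : Fin (n / 2) → ℝ) (j : Fin (n / 2)) : C n :=
  algebraMap ℝ _ (Real.cos (θ j)) +
      Real.sin (θ j) • (e ⟨2 * j, lt_even j⟩ * e ⟨2 * j + 1, lt_odd j⟩)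

/-- The normal form `∏_j (cos θ_j + sin θ_j e_{2j} e_{2j+1})`, `0 ≤ j < ⌊n/2⌋`
(indices start at zero; the product is taken in increasing order of `j`). -/
noncomputable def normalForm {n : ℕ} (θ : Fin (n / 2) → ℝ) : C n :=
  (List.ofFn (factor θ)).prod

/-- **Result.** Classification of the strongly reversible elements of `Spin(n)`. -/
theorem result (n : ℕ) (θ : Fin (n / 2) → ℝ) :
    (∃ x : Spin n, toC x = normalForm θ) ∧
    ∀ x h : Spin n, toC (h * x * h⁻¹) = normalForm θ →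
      (StronglyReversible x ↔ Criterion n (numSinZero θ) (numCosZero θ)) :=
  Pool.Agent.Q8.SPN.classification n θ

end Pool.Agent.Results.MP_aa0c4d_al.StronglyReversibleSpin
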